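import Pool.Agent.H81.Ball4

set_option autoImplicit false

namespace Pool.Agent.Results.MP_c6db0f_gt.AnyTwo

universe u

/-- `B(κ,a,b)`: the points `x` of `ℝ^κ` (product topology) with `∑ |x i| ≤ 1` (sum taken in
`[0,∞]`) and `a i ≤ x i ≤ b i` for all `i`. -/
def B {κ : Type u} (a b : κ → ℝ) : Set (κ → ℝ) :=
  {x | ∑' i, ENNReal.ofReal |x i| ≤ 1 ∧ ∀ i, a i ≤ x i ∧ x i ≤ b i}

/-- The pairs of the problem: `-1 ≤ a i < b i ≤ 1` and `∑ (a(i)⁺ + b(i)⁻) < 1`. -/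
def Pair {κ : Type u} (a b : κ → ℝ) : Prop :=
  (∀ i, -1 ≤ a i ∧ a i < b i ∧ b i ≤ 1) ∧
    ∑' i, ENNReal.ofReal (max 0 (a i) + max 0 (-b i)) < 1

lemma aux {κ : Type u} [Uncountable κ] {a b : κ → ℝ} (h : Pair a b) :
    Nonempty (Pool.Agent.H81.Bl.XX κ ≃ₜ B a b) := by
  have := Pool.Agent.H81.Bl.main (fun i => (h.1 i).2.1) h.2
  have e : B a b = {x : κ → ℝ | Pool.Agent.H81.Bl.NN x ≤ 1 ∧ ∀ i, a i ≤ x i ∧ x i ≤ b i} := by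
    simp only [B, Pool.Agent.H81.Bl.NN, Real.enorm_eq_ofReal_abs]
  rwa [e]

theorem result (κ : Type u) [Uncountable κ] :
    ∀ a b a' b' : κ → ℝ, Pair a b → Pair a' b' → Nonempty (B a b ≃ₜ B a' b') := by
  intro a b a' b' h h'
  obtain ⟨e⟩ := aux h
  obtain ⟨e'⟩ := aux h'
  exact ⟨e.symm.trans e'⟩

end Pool.Agent.Results.MP_c6db0f_gt.AnyTwo
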